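import Pool.Agent.PST.StmtsET2
import Pool.Agent.Helper76_PFD.IDG
import Pool.Agent.Helper10_PFD.Sug

/-!
# Squad PST, row ILF (helper2): idempotents lift
-/

set_option autoImplicit false

noncomputable section

namespace Pool.Agent.PST.ET.H2

open Pool.Agent.PFD.D2 (Cdv FibG)
open Pool.Agent.PST.ET

theorem ilf_of (hI : Pool.Agent.PFD.D2.IdgStmt) : IlfStmt := by
  intro R F D H _ _ _ _ c _ _ _ _ _ _ f j hj
  obtain ⟨a, rfl⟩ := f.surj j
  have hπ : c.κ c.π = 0 := (c.ker _).mpr ⟨1, (mul_one _).symm⟩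
  have hq : ∀ y : D, f.q (c.π • y) = 0 := fun y => by
    rw [Algebra.smul_def, map_mul, f.sc, hπ, map_zero, zero_mul]
  obtain ⟨y0, hy0⟩ := f.ker (a * a - a) (by rw [map_sub, map_mul, hj, sub_self])
  obtain ⟨g, hg, hgS, hge⟩ := hI R F D c (Set.range fun b : D => LinearMap.mulLeft R b)
    (LinearMap.mulRight R a) (by
      rintro s ⟨b, rfl⟩
      ext x
      simp [mul_assoc]) (fun x => ⟨x * y0, by
      rw [LinearMap.mulRight_apply, LinearMap.mulRight_apply, mul_assoc, ← mul_sub, hy0,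
        mul_smul_comm]⟩)
  have hgl : ∀ x : D, g x = x * g 1 := fun x => by
    have h1 := LinearMap.congr_fun (hgS (LinearMap.mulLeft R x) ⟨x, rfl⟩) 1
    simp only [Module.End.mul_apply, LinearMap.mulLeft_apply, mul_one] at h1
    exact h1.symm
  refine ⟨g 1, ?_, ?_⟩
  · rw [← hgl (g 1)]
    exact LinearMap.congr_fun hg 1
  · obtain ⟨y, hy⟩ := hge 1
    rw [LinearMap.mulRight_apply, one_mul, sub_eq_iff_eq_add] at hy
    rw [hy, map_add, hq, zero_add]

theorem ilf : IlfStmt := ilf_of (Pool.Agent.PFD.D2.H76.idg Pool.Agent.PFD.D2.H10.sug)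

end Pool.Agent.PST.ET.H2
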