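import Pool.Agent.PST.StmtsUC
import Pool.Agent.Helper30_PSS.S3All

/-!
# Squad PST, row QSC (helper2): fixed vectors and Brauer kernels of the quotient
-/

set_option autoImplicit false

open scoped BigOperators TensorProduct PowerSeries

noncomputable section

namespace Pool.Agent.PST.UC.H2

open Pool.Agent.PFC (tw IsTv)
open Pool.Agent.PFD.D2b (FrR)
open Pool.Agent.PSS
open Pool.Agent.PSS.S0
open Pool.Agent.PST.UC

/-- the diagonal action -/
abbrev dg (G X : Type) [Group G] [MulAction (G × G) X] : MulAction G X :=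
  MulAction.compHom X ((MonoidHom.id G).prod (MonoidHom.id G))

theorem cw_apply {R V A : Type} [CommRing R] [CommGroup V] [Ring A] [Algebra R A] (α : V →* A)
    (v : V) (a : A) : cw R α v a = α v * (a * α v⁻¹) := rfl

theorem bw_apply {R V A : Type} [CommRing R] [CommGroup V] [Ring A] [Algebra R A] (α : V →* A)
    (w : V × V) (a : A) : bw R α w a = α w.1 * (a * α w.2⁻¹) := rfl

/-- a frame for the two sided action is a frame for the conjugation -/
theorem frR_dg {R V A Ω : Type} [CommRing R] [CommGroup V] [Ring A] [Algebra R A] [Fintype Ω]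
    [MulAction (V × V) Ω] (α : V →* A) (b : Ω → A) (c : Ω → (A →ₗ[R] R))
    (h : FrR (bw R α) b c) : letI := dg V Ω; FrR (cw R α) b c := by
  letI := dg V Ω
  refine ⟨fun g t => h.1 (g, g) t, fun g t n => h.2.1 (g, g) t n, h.2.2⟩

theorem qsc : QscStmt := by
  classical
  intro ℓ _ R V E A H Ω Ω' _ _ _ _ _ _ _ _ _ _ _ φ α N _ φH αH π b c b' c' σ s m hℓ hV hQ hN hF
  -- the section
  let S : H →ₗ[R] A := ∑ ω', (c' ω').smulRight (b (s ω'))
  have hSa : ∀ h, S h = ∑ ω', c' ω' h • b (s ω') := fun h => by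
    simp only [S, LinearMap.sum_apply, LinearMap.smulRight_apply]
  -- equivariance of `S`
  have hSe : ∀ (v : V) (h : H), S (cw R αH (v : V ⧸ N) h) = cw R α v (S h) := fun v h => by
    rw [hSa, hSa, map_sum]
    rw [← Equiv.sum_comp (MulAction.toPerm (((v : V ⧸ N), (v : V ⧸ N)) : (V ⧸ N) × (V ⧸ N)))]
    refine Finset.sum_congr rfl fun ω' _ => ?_
    rw [MulAction.toPerm_apply, hF.se v ω', hN.fr.1 (v, v) (s ω'), map_smul]
    have e1 := hF.fr.2.1 (((v : V ⧸ N), (v : V ⧸ N)) : (V ⧸ N) × (V ⧸ N)) ω' h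
    have e2 : cw R αH (v : V ⧸ N) h =
        bw R αH (((v : V ⧸ N), (v : V ⧸ N)) : (V ⧸ N) × (V ⧸ N)) h := rfl
    rw [e2, e1]
    rfl
  -- equivariance of `π`
  have hπe : ∀ (v : V) (a : A), π (cw R α v a) = cw R αH (v : V ⧸ N) (π a) := fun v a => by
    rw [cw_apply, cw_apply, map_mul, map_mul, ← hQ.om v, ← hQ.om v⁻¹]
    rfl
  have hπS : ∀ h, π (S h) = h := fun h => by
    rw [hSa, map_sum]
    refine Eq.trans (Finset.sum_congr rfl fun ω' _ => ?_) (hF.fr.2.2 h)
    rw [map_smul, ← hF.hb, hF.ss]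
  -- a representative of an element of the image of `P`
  have hrep : ∀ (P : Subgroup V), N ≤ P → ∀ v : V,
      (v : V ⧸ N) ∈ P.map (QuotientGroup.mk' N) → v ∈ P := fun P hP v hv => by
    obtain ⟨p, hp, hpv⟩ := hv
    have h1 : p⁻¹ * v ∈ N := QuotientGroup.eq.mp hpv
    have h2 : v = p * (p⁻¹ * v) := by group
    rw [h2]
    exact P.mul_mem hp (hP h1)
  have hfix : ∀ (P : Subgroup V) (Q : Subgroup (V ⧸ N)), (∀ v ∈ P, (v : V ⧸ N) ∈ Q) →
      ∀ h ∈ FxR (cw R αH) Q, S h ∈ FxR (cw R α) P := fun P Q hPQ h hh v hv => by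
    rw [← hSe v h, hh _ (hPQ v hv)]
  have hmem : ∀ (P : Subgroup V), ∀ v ∈ P, (v : V ⧸ N) ∈ P.map (QuotientGroup.mk' N) :=
    fun P v hv => ⟨v, hv, rfl⟩
  refine ⟨S, hπS, fun P hP => ⟨hfix P _ (hmem P), ?_, ?_, ?_, ?_⟩⟩
  · -- (2)
    intro a ha x hx
    obtain ⟨v, hv, rfl⟩ := hx
    have h1 := hπe v a
    rw [ha v hv] at h1
    exact h1.symm
  · -- (3)
    intro h hh
    unfold BKR at hh
    induction hh using Submodule.span_induction with
    | mem n hn =>
      obtain ⟨Q, T, x, hlt, hT, hx, rfl⟩ := hn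
      let rp : V ⧸ N → V := fun y => Quotient.out y
      have hrp : ∀ y : V ⧸ N, ((rp y : V) : V ⧸ N) = y := fun y => QuotientGroup.out_eq' y
      have hrpi : Function.Injective rp := fun y z hyz => by
        rw [← hrp y, ← hrp z, hyz]
      let P1 : Subgroup V := Q.comap (QuotientGroup.mk' N)
      have hP1 : P1 < P := by
        refine lt_of_le_of_ne (fun v hv => hrep P hP v (hlt.le hv)) ?_
        intro he
        refine hlt.not_ge fun y hy => ?_
        obtain ⟨v, hv, rfl⟩ := hy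
        rw [← he] at hv
        exact hv
      refine Submodule.subset_span ⟨P1, T.image rp, S x, hP1, ⟨?_, ?_⟩,
        hfix P1 Q (fun v hv => hv) x hx, ?_⟩
      · intro t ht
        obtain ⟨y, hy, rfl⟩ := Finset.mem_image.mp ht
        refine hrep P hP _ ?_
        rw [hrp]
        exact hT.1 y hy
      · intro p hp
        obtain ⟨y, ⟨hy, hyp⟩, huy⟩ := hT.2 (p : V ⧸ N) (hmem P p hp)
        refine ⟨rp y, ⟨Finset.mem_image_of_mem _ hy, ?_⟩, ?_⟩
        · change (((rp y)⁻¹ * p : V) : V ⧸ N) ∈ Q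
          rw [QuotientGroup.mk_mul, QuotientGroup.mk_inv, hrp]
          exact hyp
        · rintro t ⟨ht, htp⟩
          obtain ⟨z, hz, rfl⟩ := Finset.mem_image.mp ht
          have h1 : (((rp z)⁻¹ * p : V) : V ⧸ N) ∈ Q := htp
          rw [QuotientGroup.mk_mul, QuotientGroup.mk_inv, hrp] at h1
          rw [huy z ⟨hz, h1⟩]
      · rw [Finset.sum_image fun y _ z _ hyz => hrpi hyz, map_sum]
        refine Finset.sum_congr rfl fun y _ => ?_
        rw [← hSe, hrp]
    | zero => rw [map_zero]; exact Submodule.zero_mem _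
    | add x y _ _ hx hy => rw [map_add]; exact Submodule.add_mem _ hx hy
    | smul r x _ hx => rw [map_smul]; exact Submodule.smul_mem _ r hx
  · -- (4)
    intro a ha
    have ha' := Pool.Agent.PSS.All30.bkf R V A (cw R α) P ha
    letI := dg (V ⧸ N) Ω'
    refine Pool.Agent.PSS.All30.fbk R (V ⧸ N) H Ω' (cw R αH) b' c' (frR_dg αH b' c' hF.fr) _ (π a) ?_ ?_
    · intro x hx
      obtain ⟨v, hv, rfl⟩ := hx
      have h1 := hπe v a
      rw [ha' v hv] at h1
      exact h1.symm
    · intro ω' hω'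
      rw [hF.hc]
      refine Finset.sum_eq_zero fun ω hω => ?_
      have hσ : σ ω = ω' := (Finset.mem_filter.mp hω).2
      letI := dg V Ω
      refine Pool.Agent.PSS.All30.fco ℓ R V A Ω (cw R α) b c hℓ hV (frR_dg α b c hN.fr) P a ha ω ?_
      intro v hv
      refine hF.fx v ω ?_
      rw [hσ]
      exact hω' (v : V ⧸ N) (hmem P v hv)
  · -- (5)
    intro a ha h0
    have hz : ∑ ω, c ω a • b (s (σ ω)) = 0 := by
      rw [← Finset.sum_fiberwise_of_maps_to (s := Finset.univ) (t := Finset.univ) (g := σ)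
        (fun ω _ => Finset.mem_univ _)]
      refine Finset.sum_eq_zero fun ω' _ => ?_
      have h1 := hF.hc ω' a
      rw [h0, map_zero] at h1
      have h2 : ∑ ω ∈ Finset.univ.filter (fun ω => σ ω = ω'), c ω a • b (s (σ ω)) =
          (∑ ω ∈ Finset.univ.filter (fun ω => σ ω = ω'), c ω a) • b (s ω') := by
        rw [Finset.sum_smul]
        refine Finset.sum_congr rfl fun ω hω => ?_
        rw [(Finset.mem_filter.mp hω).2]
      rw [h2, ← h1, zero_smul]
    have hbm : ∀ ω, b ω = α (m ω) * b (s (σ ω)) := fun ω => by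
      have h1 := hN.fr.1 (m ω, 1) (s (σ ω))
      rw [← hF.ms ω, bw_apply] at h1
      rw [h1]
      simp
    have hae : a = ∑ n ∈ Finset.univ.image m, (α n - 1) *
        ∑ ω ∈ Finset.univ.filter (fun ω => m ω = n), c ω a • b (s (σ ω)) := by
      have h1 : a = ∑ ω, c ω a • ((α (m ω) - 1) * b (s (σ ω))) := by
        have h2 : ∀ ω, c ω a • ((α (m ω) - 1) * b (s (σ ω))) =
            c ω a • b ω - c ω a • b (s (σ ω)) := fun ω => by
          rw [hbm ω, sub_mul, one_mul, smul_sub]
        rw [Finset.sum_congr rfl fun ω _ => h2 ω, Finset.sum_sub_distrib, hz, sub_zero]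
        exact (hN.fr.2.2 a).symm
      nth_rewrite 1 [h1]
      rw [← Finset.sum_fiberwise_of_maps_to (s := Finset.univ) (t := Finset.univ.image m) (g := m)
        (fun ω _ => Finset.mem_image_of_mem _ (Finset.mem_univ _))]
      refine Finset.sum_congr rfl fun n _ => ?_
      rw [Finset.mul_sum]
      refine Finset.sum_congr rfl fun ω hω => ?_
      rw [(Finset.mem_filter.mp hω).2, mul_smul_comm]
    rw [hae]
    refine Submodule.sum_mem _ fun n hn => ?_
    obtain ⟨ω₀, -, hω₀⟩ := Finset.mem_image.mp hn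
    have hnN : n ∈ N := by rw [← hω₀]; exact hF.mn ω₀
    refine Submodule.subset_span ⟨⟨n, hnN⟩, _, ?_, rfl⟩
    intro v hv
    rw [map_sum]
    refine Finset.sum_nbij' (fun ω => ((v, v) : V × V) • ω) (fun ω => ((v, v) : V × V)⁻¹ • ω)
      ?_ ?_ ?_ ?_ ?_
    · intro ω hω
      rw [Finset.mem_filter] at hω ⊢
      exact ⟨Finset.mem_univ _, by rw [hF.me v ω]; exact hω.2⟩
    · intro ω hω
      rw [Finset.mem_filter] at hω ⊢
      refine ⟨Finset.mem_univ _, ?_⟩
      have h1 := hF.me v⁻¹ ω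
      have h2 : ((v, v) : V × V)⁻¹ = (v⁻¹, v⁻¹) := rfl
      rw [h2, h1]; exact hω.2
    · intro ω _
      exact inv_smul_smul _ _
    · intro ω _
      exact smul_inv_smul _ _
    · intro ω _
      have h1 : c (((v, v) : V × V) • ω) a = c ω a := by
        have h2 := hN.fr.2.1 (v, v) ω a
        have h3 : bw R α (v, v) a = a := ha v hv
        rw [h3] at h2
        exact h2
      have h2 : s (σ (((v, v) : V × V) • ω)) = ((v, v) : V × V) • s (σ ω) := by
        rw [← hF.sg v v ω, hF.se]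
      rw [map_smul, h1, h2, hN.fr.1 (v, v) (s (σ ω))]
      rfl

end Pool.Agent.PST.UC.H2
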